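import Pool.Agent.Work.MP_54723a_co.CFX.LoopU

/-!
# `f(3, k) ≤ 10 ^ N * 3 ^ (k - 1)` for all `k`, with `N ≤ 2 * 10 ^ 24`  (helper6, over helper20's
numbers)

The kernel refuses to evaluate closed powers with huge exponents, so the exponent is always kept as
a variable.
-/

set_option autoImplicit false

namespace FlashRainbow.CFX

open Classical FlashRainbow.CF

theorem six_le {n q : ℕ} (h : n ≤ 9 * q) : 6 ^ n ≤ 10 ^ (8 * q) := by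
  calc 6 ^ n ≤ 6 ^ (9 * q) := Nat.pow_le_pow_right (by norm_num) h
    _ = (6 ^ 9) ^ q := by rw [pow_mul]
    _ ≤ (10 ^ 8) ^ q := Nat.pow_le_pow_left (by norm_num) q
    _ = 10 ^ (8 * q) := by rw [pow_mul]

theorem KA_le {C q : ℕ} (h1 : C + 1 ≤ 10 ^ 25) (h2 : C + (C + 1) ≤ 9 * q) :
    KA C ≤ 10 ^ (25 + 8 * q) := by
  unfold KA
  rw [pow_add 10 25]
  exact Nat.mul_le_mul h1 (six_le h2)

theorem numbers {T A q : ℕ} (h1 : T + 4 + 1 ≤ 10 ^ 25) (h2 : T + 4 + (T + 4 + 1) ≤ 9 * q) :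
    KA (T + 4) + 1 ≤ 10 ^ (A + 31 + 8 * q) ∧
      2 ^ A * (2 * 12000 * KA (T + 1)) ≤ 10 ^ (A + 31 + 8 * q) := by
  have h3 := KA_le h1 h2
  have h4 : KA (T + 1) ≤ KA (T + 4) := KA_mono (by omega)
  have h0 : 1 ≤ 10 ^ (25 + 8 * q) := Nat.one_le_pow _ _ (by norm_num)
  constructor
  · calc KA (T + 4) + 1 ≤ 10 ^ (25 + 8 * q) * 10 := by omega
      _ = 10 ^ (25 + 8 * q + 1) := (pow_succ _ _).symm
      _ ≤ 10 ^ (A + 31 + 8 * q) := Nat.pow_le_pow_right (by norm_num) (by omega)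
  · have h5 : 2 ^ A ≤ 10 ^ A := Nat.pow_le_pow_left (by norm_num) A
    have h6 : 2 * 12000 * KA (T + 1) ≤ 10 ^ 5 * 10 ^ (25 + 8 * q) :=
      Nat.mul_le_mul (by norm_num) (h4.trans h3)
    calc 2 ^ A * (2 * 12000 * KA (T + 1)) ≤ 10 ^ A * (10 ^ 5 * 10 ^ (25 + 8 * q)) :=
          Nat.mul_le_mul h5 h6
      _ = 10 ^ (A + (5 + (25 + 8 * q))) := by rw [pow_add 10 A, pow_add 10 5 (25 + 8 * q)]
      _ ≤ 10 ^ (A + 31 + 8 * q) := Nat.pow_le_pow_right (by norm_num) (by omega)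

/-- **EXPLICIT CONSTANT**: `f(3, k) ≤ 10 ^ N * 3 ^ (k - 1)` for some `N ≤ 2 * 10 ^ 24` and all `k` -/
theorem constant_factor_explicit : ∃ N : ℕ, N ≤ 2 * 10 ^ 24 ∧ ∀ k n : ℕ, 1 ≤ k →
    10 ^ N * 3 ^ (k - 1) < n → ∀ c : Fin n → Fin n → ℕ,
      (∃ x : Fin (3 + 1) → Fin n, StrictMono x ∧
        ∃ col : ℕ, ∀ i : Fin 3, c (x i.castSucc) (x i.succ) = col) ∨
      (∃ y : Fin (k + 1) → Fin n, StrictMono y ∧
        Function.Injective (fun i : Fin k => c (y i.castSucc) (y i.succ))) := by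
  obtain ⟨T, hT⟩ : ∃ T, TT 1 = T := ⟨_, rfl⟩
  have hTv : T = 1041666666666666666666666 := by
    rw [← hT]
    simp [TT]
  obtain ⟨A, hA⟩ : ∃ A, AT (0 + 1) = A := ⟨_, rfl⟩
  have hAv : A = 27648000017 := by
    rw [← hA]
    simp [AT, qT]
  obtain ⟨q, hq⟩ : ∃ q : ℕ, q = 231481481481481481481483 := ⟨_, rfl⟩
  obtain ⟨N, hN⟩ : ∃ N : ℕ, N = A + 31 + 8 * q := ⟨_, rfl⟩
  have h1 := numbers (T := T) (A := A) (q := q) (by rw [hTv]; norm_num) (by omega)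
  rw [← hN] at h1
  refine ⟨N, by omega, final_of_ext (ext_bound hT hA h1.1 h1.2 (Nat.one_le_pow _ _ (by norm_num)))⟩

end FlashRainbow.CFX
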