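import Pool.Agent.Work.MP_54723a_co.CFX.Explicit

/-!
# The limit of `f(3, k) / 3 ^ (k - 1)` is at most `10 ^ (2 * 10 ^ 24)`  (helper6)
-/

set_option autoImplicit false

namespace FlashRainbow.CFX

/-- the limit is at most `10 ^ N` for some `N ≤ 2 * 10 ^ 24` -/
theorem limit_le {f : ℕ → ℕ} {L : ℝ}
    (h : ∀ k : ℕ, 1 ≤ k → ∃ c : Fin (f k) → Fin (f k) → ℕ,
      (¬ ∃ x : Fin (3 + 1) → Fin (f k), StrictMono x ∧
        ∃ col : ℕ, ∀ i : Fin 3, c (x i.castSucc) (x i.succ) = col) ∧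
      (¬ ∃ y : Fin (k + 1) → Fin (f k), StrictMono y ∧
        Function.Injective (fun i : Fin k => c (y i.castSucc) (y i.succ))))
    (hL : Filter.Tendsto (fun k : ℕ => (f k : ℝ) / (3 : ℝ) ^ (k - 1)) Filter.atTop (nhds L)) :
    ∃ N : ℕ, N ≤ 2 * 10 ^ 24 ∧ L ≤ (10 : ℝ) ^ N := by
  obtain ⟨N, hN, hmain⟩ := constant_factor_explicit
  refine ⟨N, hN, le_of_tendsto hL ?_⟩
  filter_upwards [Filter.eventually_ge_atTop 1] with k hk
  have h1 : f k ≤ 10 ^ N * 3 ^ (k - 1) := by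
    by_contra hcon
    push Not at hcon
    obtain ⟨c, hc1, hc2⟩ := h k hk
    rcases hmain k (f k) hk hcon c with h2 | h2
    · exact hc1 h2
    · exact hc2 h2
  rw [div_le_iff₀ (by positivity)]
  exact_mod_cast h1

end FlashRainbow.CFX
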