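import Pool.Agent.Work.MP_54723a_co.CF.HZones
import Pool.Agent.Work.MP_54723a_co.CF.PiTrick
import Pool.Agent.Work.MP_54723a_co.CF.NoFar
import Pool.Agent.Work.MP_54723a_co.CF.HubNext
import Pool.Agent.Work.MP_54723a_co.CF.NumRich
import Pool.Agent.Work.MP_54723a_co.CF.Maxim

/-!
# Constant factor, explicit constant: stages
(copy of CF/LoopT of helper20 in an own namespace; helper6)
-/

set_option autoImplicit false

namespace FlashRainbow.CFX

open Classical FlashRainbow.CF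

variable {c : ℕ → ℕ → ℕ} {V Z T X K F G G' : Finset ℕ} {R t s x M a qh lg : ℕ}
  {Hv : ℕ → Finset ℕ} {lev : ℕ → ℕ → ℕ}

/-- **Existence of a junction, positive form with numbers.** -/
theorem jun_exists (hL : Lev c V 3 lev) (hR : Rk c V R)
    (hM : ∀ W ⊆ V, ∀ r ≤ R, Rk c W r → W.card * 3 ^ (R - r) ≤ M) (h3 : 3 ^ R ≤ M)
    (hH : Hub c V x K F) (ht : R = K.card + t) (hZV : Z ⊆ V) (hxZ : ∀ v ∈ Z, x < v)
    (hxF : ∀ v ∈ Z, c x v ∉ F) (hHv : ∀ v ∈ Z, (Hv v).card ≤ qh) (ha : M ≤ 2 ^ a * Z.card)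
    (hlg : t + 1 ≤ 2 ^ lg) (hs : s = a + qh + 2 * lg + 11) (hst : s + 3 ≤ t) :
    ∃ τ, 8 ≤ τ ∧ M ≤ 2 ^ (s + 1) * (τ * 3 ^ (R - t)) ∧ HasJunH c V Z K F x τ Hv := by
  have hKc : K.card = R - t := by omega
  obtain ⟨W, hW⟩ : ∃ W, W = 3 ^ (R - t) := ⟨_, rfl⟩
  have hWpos : 0 < W := by rw [hW]; positivity
  have hW3 : W * 3 ^ t ≤ M := by
    rw [hW, ← pow_add]
    refine le_trans (le_of_eq ?_) h3
    congr 1
    omega
  have h2s : 0 < 2 ^ s := by positivity
  obtain ⟨τ, hτ⟩ : ∃ τ, τ = M / (W * 2 ^ s) := ⟨_, rfl⟩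
  have h8 : 8 ≤ τ := by
    rw [hτ, Nat.le_div_iff_mul_le (by positivity)]
    calc 8 * (W * 2 ^ s) = W * 2 ^ (s + 3) := by rw [pow_add]; ring
      _ ≤ W * 3 ^ (s + 3) := Nat.mul_le_mul_left _ (Nat.pow_le_pow_left (by norm_num) _)
      _ ≤ W * 3 ^ t := Nat.mul_le_mul_left _ (Nat.pow_le_pow_right (by norm_num) hst)
      _ ≤ M := hW3
  have hτM : τ * (W * 2 ^ s) ≤ M := by
    rw [hτ]
    exact Nat.div_mul_le_self _ _
  have hMτ : M ≤ 2 ^ (s + 1) * (τ * W) := by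
    have h1 : M < (τ + 1) * (W * 2 ^ s) := by
      have := Nat.lt_div_mul_add (a := M) (b := W * 2 ^ s) (by positivity)
      rw [← hτ] at this
      calc M < τ * (W * 2 ^ s) + W * 2 ^ s := this
        _ = (τ + 1) * (W * 2 ^ s) := by ring
    have h2 : (τ + 1) * (W * 2 ^ s) ≤ (2 * τ) * (W * 2 ^ s) := Nat.mul_le_mul_right _ (by omega)
    calc M ≤ (2 * τ) * (W * 2 ^ s) := by omega
      _ = 2 ^ (s + 1) * (τ * W) := by rw [pow_succ]; ring
  refine ⟨τ, h8, by rw [← hW]; exact hMτ, ?_⟩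
  by_contra hno
  obtain ⟨T, hTZ, hTc, hsel⟩ := pi_select c x Z Hv hHv
  have hx := hH.mem
  have hτ0 : 0 < τ := by omega
  have hNJ : NoJun3 c T K F x (33 * τ) := by
    refine ⟨⟨?_, ?_⟩, ?_⟩
    · intro l hl X hX hXK
      have := pi_one hL hx hZV hxZ hTZ hτ0 hno l hl hX hXK
      omega
    · intro u hu φ hφ hne X hX hXK
      have := pi_two hL hx hZV hxZ hTZ hτ0 hno hxF hsel u hu φ hφ hne hX hXK
      omega
    · intro u hu s hs hus h1 h2 h3 h4 X hX hXK
      exact pi_three hL hx hZV hxZ hTZ hτ0 hno hxF hsel u s hu hs hus h1 h4 h2 h3 hX hXK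
  have hfar := far_free (t := t) hL hR hM hH (by omega) (hTZ.trans hZV) (fun v hv => hxZ v (hTZ hv))
    (fun v hv => hxF v (hTZ hv)) (by omega) hNJ
  rw [hKc, ← hW] at hfar
  -- the size of `T`
  have hMT : M ≤ 2 ^ (a + qh + 1) * T.card := by
    calc M ≤ 2 ^ a * Z.card := ha
      _ ≤ 2 ^ a * (2 ^ (qh + 1) * T.card) := Nat.mul_le_mul_left _ hTc
      _ = 2 ^ (a + qh + 1) * T.card := by
          rw [← mul_assoc, ← pow_add]
          congr 2
  have hMpos : 0 < M := lt_of_lt_of_le (by positivity) h3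
  have hTpos : 0 < T.card := by
    rcases Nat.eq_zero_or_pos T.card with h0 | h0
    · rw [h0, Nat.mul_zero] at hMT
      omega
    · exact h0
  have hlg2 : (t + 1) ^ 2 ≤ 2 ^ (2 * lg) := by
    calc (t + 1) ^ 2 ≤ (2 ^ lg) ^ 2 := Nat.pow_le_pow_left hlg 2
      _ = 2 ^ (2 * lg) := by rw [← pow_mul]; congr 1; ring
  -- first term
  have ht1 : 1 ≤ t := by omega
  have hA : 4 * (t + 1) ^ 2 * 256 ^ t * M < 729 ^ t * T.card := by
    calc 4 * (t + 1) ^ 2 * 256 ^ t * M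
        ≤ 4 * 2 ^ (2 * lg) * 256 ^ t * (2 ^ (a + qh + 1) * T.card) := by gcongr
      _ = 2 ^ (2 * lg + 2 + (a + qh + 1)) * 256 ^ t * T.card := by
          rw [pow_add 2 (2 * lg + 2) (a + qh + 1), pow_add 2 (2 * lg) 2]; ring
      _ ≤ 2 ^ t * 256 ^ t * T.card := by
          gcongr
          · norm_num
          · omega
      _ = 512 ^ t * T.card := by rw [← mul_pow]; norm_num
      _ < 729 ^ t * T.card := by
          refine Nat.mul_lt_mul_of_pos_right ?_ hTpos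
          exact Nat.pow_lt_pow_left (by norm_num) (by omega)
  -- second term
  have hB : 2 * (W * (bG t (33 * τ) + (8 * t ^ 2 + 1) * (33 * τ))) ≤ T.card := by
    have h1 : bG t (33 * τ) + (8 * t ^ 2 + 1) * (33 * τ) ≤ 396 * (t + 1) ^ 2 * τ := by
      unfold bG
      have h2 : 396 * (t + 1) ^ 2 * τ = 1 + (t + 1) * ((t + 2) * (33 * τ) + 1) +
          (8 * t ^ 2 + 1) * (33 * τ) + (99 * t ^ 2 * τ + 693 * t * τ + 297 * τ - t - 2) := by
        have h3 : t + 2 ≤ 99 * t ^ 2 * τ + 693 * t * τ + 297 * τ := by nlinarith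
        zify [h3]
        have h4 : ((99 * t ^ 2 * τ + 693 * t * τ + 297 * τ - t - 2 : ℕ) : ℤ) =
            99 * t ^ 2 * τ + 693 * t * τ + 297 * τ - t - 2 := by
          rw [Nat.sub_sub]
          push_cast [Nat.cast_sub h3]
          ring
        rw [h4]
        ring
      omega
    have h5 : 2 ^ s * (2 * (W * (bG t (33 * τ) + (8 * t ^ 2 + 1) * (33 * τ)))) ≤ 2 ^ s * T.card := by
      calc 2 ^ s * (2 * (W * (bG t (33 * τ) + (8 * t ^ 2 + 1) * (33 * τ))))
          ≤ 2 ^ s * (2 * (W * (396 * (t + 1) ^ 2 * τ))) := by gcongr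
        _ = 792 * (t + 1) ^ 2 * (τ * (W * 2 ^ s)) := by ring
        _ ≤ 792 * (t + 1) ^ 2 * M := Nat.mul_le_mul_left _ hτM
        _ ≤ 2 ^ 10 * 2 ^ (2 * lg) * (2 ^ (a + qh + 1) * T.card) := by
            gcongr
            norm_num
        _ = 2 ^ s * T.card := by
            rw [hs, show a + qh + 2 * lg + 11 = 10 + 2 * lg + (a + qh + 1) by ring, pow_add, pow_add]
            ring
    exact Nat.le_of_mul_le_mul_left h5 h2s
  -- contradiction
  have h6 : 2 * (T.card * 729 ^ t) ≤ 4 * (t + 1) ^ 2 * 256 ^ t * M + 729 ^ t * T.card := by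
    calc 2 * (T.card * 729 ^ t) ≤ 2 * (2 * (t + 1) ^ 2 * 256 ^ t * M +
          729 ^ t * (W * (bG t (33 * τ) + (8 * t ^ 2 + 1) * (33 * τ)))) :=
          Nat.mul_le_mul_left _ hfar
      _ = 4 * (t + 1) ^ 2 * 256 ^ t * M +
          729 ^ t * (2 * (W * (bG t (33 * τ) + (8 * t ^ 2 + 1) * (33 * τ)))) := by ring
      _ ≤ _ := Nat.add_le_add_left (Nat.mul_le_mul_left _ hB) _
  have h7 : T.card * 729 ^ t = 729 ^ t * T.card := Nat.mul_comm _ _
  omega

/-- sum of the masses -/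
theorem sum_mass_eq {A B : Finset ℕ} (hAB : ∀ v ∈ A, ∀ w ∈ B, v < w) (F : Finset ℕ) :
    ∑ v ∈ A, (B.filter fun w => c v w ∈ F).card = ∑ φ ∈ F, prs c A B φ := by
  have h1 : ∀ v ∈ A, (B.filter fun w => c v w ∈ F).card =
      ∑ φ ∈ F, (B.filter fun w => c v w = φ).card := by
    intro v _
    refine (Finset.card_eq_sum_card_fiberwise (s := B.filter fun w => c v w ∈ F)
      (f := fun w => c v w) (t := F) (fun w hw => Finset.mem_coe.mpr
        (Finset.mem_filter.mp (Finset.mem_coe.mp hw)).2)).trans ?_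
    refine Finset.sum_congr rfl fun φ hφ => ?_
    congr 1
    ext w
    simp only [Finset.mem_filter]
    constructor
    · rintro ⟨⟨h1, _⟩, h3⟩
      exact ⟨h1, h3⟩
    · rintro ⟨h1, h3⟩
      exact ⟨⟨h1, h3 ▸ hφ⟩, h3⟩
  rw [Finset.sum_congr rfl h1, Finset.sum_comm]
  refine Finset.sum_congr rfl fun φ _ => ?_
  unfold prs
  rw [Finset.card_filter, Finset.sum_product]
  refine Finset.sum_congr rfl fun v hv => ?_
  rw [Finset.card_filter]
  refine Finset.sum_congr rfl fun w hw => ?_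
  simp [hAB v hv w hw]

/-- few points of `A` have a large mass of old colours -/
theorem bad_le {A B F : Finset ℕ} {d : ℕ} (hAB : ∀ v ∈ A, ∀ w ∈ B, v < w)
    (hB : 0 < B.card) (hold : 16 * d ^ 2 * ∑ φ ∈ F, prs c A B φ ≤ A.card * B.card) :
    4 * d * (A.filter fun v => B.card < 4 * d * (B.filter fun w => c v w ∈ F).card).card ≤
      A.card := by
  set S := A.filter fun v => B.card < 4 * d * (B.filter fun w => c v w ∈ F).card with hS
  have h1 : S.card * B.card ≤ 4 * d * ∑ φ ∈ F, prs c A B φ := by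
    rw [← sum_mass_eq hAB, Finset.mul_sum, ← smul_eq_mul, ← Finset.sum_const]
    calc ∑ _v ∈ S, B.card ≤ ∑ v ∈ S, 4 * d * (B.filter fun w => c v w ∈ F).card :=
          Finset.sum_le_sum fun v hv => (Finset.mem_filter.mp hv).2.le
      _ ≤ _ := Finset.sum_le_sum_of_subset (Finset.filter_subset _ _)
  have h2 : B.card * (4 * d * S.card) ≤ B.card * A.card := by
    calc B.card * (4 * d * S.card) = 4 * d * (S.card * B.card) := by ring
      _ ≤ 4 * d * (4 * d * ∑ φ ∈ F, prs c A B φ) := Nat.mul_le_mul_left _ h1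
      _ = 16 * d ^ 2 * ∑ φ ∈ F, prs c A B φ := by ring
      _ ≤ A.card * B.card := hold
      _ = B.card * A.card := Nat.mul_comm _ _
  exact Nat.le_of_mul_le_mul_left h2 hB

/-- the heavy colours -/
noncomputable def heavy (c : ℕ → ℕ → ℕ) (B : Finset ℕ) (d v : ℕ) : Finset ℕ :=
  (B.image fun w => c v w).filter fun g => B.card < 12 * d * (B.filter fun w => c v w = g).card

theorem heavy_card {B : Finset ℕ} {d v : ℕ} : (heavy c B d v).card ≤ 12 * d := by
  have h1 : ∑ g ∈ heavy c B d v, (B.filter fun w => c v w = g).card ≤ B.card := by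
    rw [← Finset.card_biUnion]
    · refine Finset.card_le_card ?_
      intro w hw
      obtain ⟨g, _, hw'⟩ := Finset.mem_biUnion.mp hw
      exact (Finset.mem_filter.mp hw').1
    · intro a _ b _ hab
      rw [Function.onFun, Finset.disjoint_left]
      intro w hw hw'
      exact hab ((Finset.mem_filter.mp hw).2.symm.trans (Finset.mem_filter.mp hw').2)
  have h2 : (heavy c B d v).card * (B.card + 1) ≤ 12 * d * B.card := by
    calc (heavy c B d v).card * (B.card + 1) = ∑ _g ∈ heavy c B d v, (B.card + 1) := by simp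
      _ ≤ ∑ g ∈ heavy c B d v, 12 * d * (B.filter fun w => c v w = g).card :=
        Finset.sum_le_sum fun g hg => (Finset.mem_filter.mp hg).2
      _ = 12 * d * ∑ g ∈ heavy c B d v, (B.filter fun w => c v w = g).card := by
        rw [Finset.mul_sum]
      _ ≤ _ := Nat.mul_le_mul_left _ h1
  have h3 : (heavy c B d v).card * (B.card + 1) ≤ 12 * d * (B.card + 1) :=
    h2.trans (Nat.mul_le_mul_left _ (by omega))
  exact Nat.le_of_mul_le_mul_right h3 (by omega)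

theorem light_of {B : Finset ℕ} {d v g : ℕ} (hg : g ∉ heavy c B d v) :
    12 * d * (B.filter fun w => c v w = g).card ≤ B.card := by
  by_contra hcon
  push Not at hcon
  refine hg (Finset.mem_filter.mpr ⟨?_, hcon⟩)
  have hpos : 0 < (B.filter fun w => c v w = g).card := by
    rcases Nat.eq_zero_or_pos (B.filter fun w => c v w = g).card with h0 | h0
    · rw [h0] at hcon
      omega
    · exact h0
  obtain ⟨w, hw⟩ := Finset.card_pos.mp hpos
  exact Finset.mem_image.mpr ⟨w, (Finset.mem_filter.mp hw).1, (Finset.mem_filter.mp hw).2⟩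

/-- the mass of the old and the new colours at a new hub -/
theorem mass_new {B Φ F : Finset ℕ} {d v g : ℕ} (hd : 1 ≤ d) (hΦ : Φ.card ≤ 3)
    (hnd : NDom c d v B) (hold : 4 * d * (B.filter fun w => c v w ∈ F).card ≤ B.card)
    (hg : ∀ φ ∈ Φ, φ ≠ g → φ ∉ heavy c B d v) :
    2 * d * (B.filter fun w => c v w ∈ F ∪ Φ).card ≤ (2 * d - 1) * B.card := by
  have h1 : (B.filter fun w => c v w ∈ F ∪ Φ).card ≤ (B.filter fun w => c v w ∈ F).card +
      ((B.filter fun w => c v w = g).card +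
        ∑ φ ∈ Φ.erase g, (B.filter fun w => c v w = φ).card) := by
    have hsub : (B.filter fun w => c v w ∈ F ∪ Φ) ⊆ (B.filter fun w => c v w ∈ F) ∪
        ((B.filter fun w => c v w = g) ∪
          (Φ.erase g).biUnion fun φ => B.filter fun w => c v w = φ) := by
      intro w hw
      obtain ⟨hwB, hw'⟩ := Finset.mem_filter.mp hw
      rcases Finset.mem_union.mp hw' with h | h
      · exact Finset.mem_union_left _ (Finset.mem_filter.mpr ⟨hwB, h⟩)
      · refine Finset.mem_union_right _ ?_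
        by_cases hg' : c v w = g
        · exact Finset.mem_union_left _ (Finset.mem_filter.mpr ⟨hwB, hg'⟩)
        · exact Finset.mem_union_right _ (Finset.mem_biUnion.mpr ⟨c v w,
            Finset.mem_erase.mpr ⟨hg', h⟩, Finset.mem_filter.mpr ⟨hwB, rfl⟩⟩)
    refine (Finset.card_le_card hsub).trans ((Finset.card_union_le _ _).trans ?_)
    refine Nat.add_le_add_left ((Finset.card_union_le _ _).trans ?_) _
    exact Nat.add_le_add_left Finset.card_biUnion_le _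
  have h2 : 12 * d * ∑ φ ∈ Φ.erase g, (B.filter fun w => c v w = φ).card ≤ 3 * B.card := by
    rw [Finset.mul_sum]
    calc ∑ φ ∈ Φ.erase g, 12 * d * (B.filter fun w => c v w = φ).card
        ≤ ∑ _φ ∈ Φ.erase g, B.card := Finset.sum_le_sum fun φ hφ =>
          light_of (hg φ (Finset.mem_of_mem_erase hφ) (Finset.ne_of_mem_erase hφ))
      _ = (Φ.erase g).card * B.card := by rw [Finset.sum_const, smul_eq_mul]
      _ ≤ 3 * B.card := Nat.mul_le_mul_right _ ((Finset.card_erase_le).trans hΦ)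
  have h3 := hnd g
  obtain ⟨m1, hm1⟩ : ∃ m, m = (B.filter fun w => c v w ∈ F).card := ⟨_, rfl⟩
  obtain ⟨m2, hm2⟩ : ∃ m, m = (B.filter fun w => c v w = g).card := ⟨_, rfl⟩
  obtain ⟨m3, hm3⟩ : ∃ m, m = ∑ φ ∈ Φ.erase g, (B.filter fun w => c v w = φ).card := ⟨_, rfl⟩
  obtain ⟨b, hb⟩ : ∃ b, b = B.card := ⟨_, rfl⟩
  obtain ⟨u, hu⟩ : ∃ u, u = (B.filter fun w => c v w ∈ F ∪ Φ).card := ⟨_, rfl⟩
  rw [← hm1] at hold h1
  rw [← hm2] at h1 h3
  rw [← hm3] at h1 h2
  rw [← hb] at hold h2 h3 ⊢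
  rw [← hu] at h1 ⊢
  obtain ⟨d', rfl⟩ := Nat.exists_eq_add_of_le hd
  have e1 : 1 + d' - 1 = d' := by omega
  have e2 : 2 * (1 + d') - 1 = 1 + 2 * d' := by omega
  rw [e1] at h3
  rw [e2]
  nlinarith

/-- **One stage.** -/
theorem stage_T (hL : Lev c V 3 lev) (hR : Rk c V R)
    (hM : ∀ W ⊆ V, ∀ r ≤ R, Rk c W r → W.card * 3 ^ (R - r) ≤ M) (h3 : 3 ^ R ≤ M)
    (hH : Hub c V x K F) (ht : R = K.card + t) {A B : Finset ℕ} {d e m : ℕ} (hd : 1 ≤ d)
    (hAV : A ⊆ V) (hxA : ∀ v ∈ A, x < v) (hAB : ∀ v ∈ A, ∀ w ∈ B, v < w) (hB : 0 < B.card)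
    (hnd : ∀ v ∈ A, NDom c d v B)
    (hmass : 2 * d * (A.filter fun w => c x w ∈ F).card ≤ (2 * d - 1) * A.card)
    (hold : 16 * d ^ 2 * ∑ φ ∈ F, prs c A B φ ≤ A.card * B.card)
    (ha : M ≤ 2 ^ a * A.card) (he : 4 * d ≤ 2 ^ e) (ht0 : 16384 ≤ t)
    (hta : 200 * (a + e + 12 * d + 12) + 8000 ≤ t) (hm3 : 3 ≤ m) (hm : 20 * (m + 1) ≤ t) :
    ∃ x' ∈ A, ∃ K' Φ, Hub c V x' K' (F ∪ Φ) ∧ R = K'.card + (t - m) ∧ Φ.card ≤ 3 ∧
      Disjoint Φ F ∧ (∀ φ ∈ Φ, ∃ u ∈ insert x A, ∃ v ∈ insert x A, u < v ∧ c u v = φ) ∧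
      2 * d * (B.filter fun w => c x' w ∈ F ∪ Φ).card ≤ (2 * d - 1) * B.card := by
  set Z := A.filter fun v => c x v ∉ F ∧ ¬ B.card < 4 * d * (B.filter fun w => c v w ∈ F).card
    with hZ
  have hZA : Z ⊆ A := Finset.filter_subset _ _
  have hbad := bad_le (c := c) (F := F) hAB hB hold
  -- the size of `Z`
  have hZc : A.card ≤ 4 * d * Z.card := by
    have hsub : A ⊆ Z ∪ ((A.filter fun w => c x w ∈ F) ∪
        A.filter fun v => B.card < 4 * d * (B.filter fun w => c v w ∈ F).card) := by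
      intro v hv
      by_cases h1 : c x v ∈ F
      · exact Finset.mem_union_right _ (Finset.mem_union_left _ (Finset.mem_filter.mpr ⟨hv, h1⟩))
      · by_cases h2 : B.card < 4 * d * (B.filter fun w => c v w ∈ F).card
        · exact Finset.mem_union_right _ (Finset.mem_union_right _
            (Finset.mem_filter.mpr ⟨hv, h2⟩))
        · exact Finset.mem_union_left _ (Finset.mem_filter.mpr ⟨hv, h1, h2⟩)
    have h1 := (Finset.card_le_card hsub).trans (Finset.card_union_le _ _)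
    have h2 := Finset.card_union_le (A.filter fun w => c x w ∈ F)
      (A.filter fun v => B.card < 4 * d * (B.filter fun w => c v w ∈ F).card)
    obtain ⟨m1, hm1⟩ : ∃ m, m = (A.filter fun w => c x w ∈ F).card := ⟨_, rfl⟩
    obtain ⟨m2, hm2⟩ : ∃ m, m = (A.filter fun v =>
      B.card < 4 * d * (B.filter fun w => c v w ∈ F).card).card := ⟨_, rfl⟩
    obtain ⟨z, hz⟩ : ∃ z, z = Z.card := ⟨_, rfl⟩
    obtain ⟨n, hn⟩ : ∃ n, n = A.card := ⟨_, rfl⟩
    rw [← hm1, ← hm2] at h2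
    rw [← hz, ← hn] at h1
    rw [← hm1, ← hn] at hmass
    rw [← hm2, ← hn] at hbad
    rw [← hz, ← hn]
    have h4 : n ≤ z + (m1 + m2) := h1.trans (Nat.add_le_add_left h2 _)
    obtain ⟨d', rfl⟩ := Nat.exists_eq_add_of_le hd
    have e2 : 2 * (1 + d') - 1 = 1 + 2 * d' := by omega
    rw [e2] at hmass
    nlinarith
  have ha' : M ≤ 2 ^ (a + e) * Z.card := by
    calc M ≤ 2 ^ a * A.card := ha
      _ ≤ 2 ^ a * (4 * d * Z.card) := Nat.mul_le_mul_left _ hZc
      _ ≤ 2 ^ a * (2 ^ e * Z.card) := by gcongr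
      _ = 2 ^ (a + e) * Z.card := by rw [pow_add]; ring
  -- numbers
  obtain ⟨lg, hlg⟩ : ∃ lg, lg = Nat.log 2 (t + 1) + 1 := ⟨_, rfl⟩
  have hlg1 : t + 1 ≤ 2 ^ lg := by
    rw [hlg]
    exact (Nat.lt_pow_succ_log_self (by norm_num) _).le
  have hlg2 := log_small ht0
  obtain ⟨s, hs⟩ : ∃ s, s = (a + e) + 12 * d + 2 * lg + 11 := ⟨_, rfl⟩
  obtain ⟨τ, h8, hMτ, Φ, X, hΦ, hΦF, hXZ, hJ, hXK, hτX, hgX, harc⟩ :=
    jun_exists (Hv := heavy c B d) hL hR hM h3 hH ht (hZA.trans hAV)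
      (fun v hv => hxA v (hZA hv)) (fun v hv => (Finset.mem_filter.mp hv).2.1)
      (fun v _ => heavy_card) ha' hlg1 hs (by omega)
  have hs1 : 133 * (s + 1) + 4000 ≤ t := by omega
  obtain ⟨s', g1, g2, g3⟩ := rich_num (q := s + 1) (m := m + 1) ht0 hs1 hm
  obtain ⟨x', hx', K', hHub, hK'⟩ := hub_next (q := s + 1) (s := s') (m := m) hL hR hM h3 hH ht hΦ
    hΦF hJ hXK (h8.trans hτX) (by
      refine hMτ.trans (Nat.mul_le_mul_left _ (Nat.mul_le_mul_right _ hτX))) (by omega) g2 hm3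
    (by omega)
  have hx'Z := hXZ hx'
  obtain ⟨g, hg⟩ := hgX x' hx'
  refine ⟨x', hZA hx'Z, K', Φ, hHub, hK', hΦ, hΦF, ?_, ?_⟩
  · intro φ hφ
    obtain ⟨u, hu, v, hv, h⟩ := harc φ hφ
    exact ⟨u, Finset.insert_subset_insert _ hZA hu, v, Finset.insert_subset_insert _ hZA hv, h⟩
  · exact mass_new hd hΦ (hnd x' (hZA hx'Z)) (not_lt.mp (Finset.mem_filter.mp hx'Z).2.2) hg

end FlashRainbow.CFX
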